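import Pool.Agent.R652.SR.Defs2

set_option autoImplicit false

namespace Pool.Agent.R238.PK

/-- symbols reachable from the symbols in `st` with the rules in `us` -/
inductive Rch {R N : Type} (inp : R → N) (out : R → Multiset N) (st : N → Prop) (us : R → Prop) :
    N → Prop
  | base {Z : N} : st Z → Rch inp out st us Z
  | step {r : R} {Z : N} : us r → Rch inp out st us (inp r) → Z ∈ out r → Rch inp out st us Z

theorem Rch.mono {R N : Type} {inp : R → N} {out : R → Multiset N} {st st' : N → Prop}
    {us us' : R → Prop} (h1 : ∀ Z, st Z → Rch inp out st' us' Z) (h2 : ∀ r, us r → us' r) {Z : N}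
    (h : Rch inp out st us Z) : Rch inp out st' us' Z := by
  induction h with
  | base h => exact h1 _ h
  | step hr _ hZ ih => exact Rch.step (h2 _ hr) ih hZ

section flow

variable {R N : Type} [Fintype R] (inp : R → N) (out : R → Multiset N)

/-- flow condition and connectivity of the multiplicities `y` for the state `M` -/
def Good (M : Multiset N) (y : R → ℕ) : Prop :=
  M + ∑ r, y r • out r = ∑ r, y r • {inp r} ∧
    ∀ r, 0 < y r → Rch inp out (fun Z => Z ∈ M) (fun r => 0 < y r) (inp r)

variable {inp out}

theorem sum_split [DecidableEq R] {A : Type} [AddCommMonoid A] (f : R → A) {y : R → ℕ} {r : R}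
    (hr : 0 < y r) :
    ∑ s, y s • f s = f r + ∑ s, (Function.update y r (y r - 1)) s • f s := by
  rw [← Finset.add_sum_erase Finset.univ _ (Finset.mem_univ r)]
  rw [← Finset.add_sum_erase Finset.univ (fun s => (Function.update y r (y r - 1)) s • f s)
    (Finset.mem_univ r)]
  have h1 : ∑ s ∈ Finset.univ.erase r, y s • f s =
      ∑ s ∈ Finset.univ.erase r, (Function.update y r (y r - 1)) s • f s := by
    refine Finset.sum_congr rfl fun s hs => ?_
    rw [Function.update_of_ne (Finset.ne_of_mem_erase hs)]
  rw [h1, Function.update_self, ← add_assoc]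
  congr 1
  obtain ⟨k, hk⟩ : ∃ k, y r = k + 1 := ⟨y r - 1, by omega⟩
  rw [hk, succ_nsmul, Nat.add_sub_cancel, add_comm]

/-- choice of the rule to be fired -/
theorem step [DecidableEq R] [DecidableEq N] {M : Multiset N} {y : R → ℕ} (h : Good inp out M y)
    (hy : ∃ r, 0 < y r) :
    ∃ r, 0 < y r ∧ inp r ∈ M ∧
      Good inp out (M.erase (inp r) + out r) (Function.update y r (y r - 1)) := by
  obtain ⟨hflow, hconn⟩ := h
  obtain ⟨r0, hr0⟩ := hy
  have hne : ∃ X, X ∈ M := by
    have h1 := hconn r0 hr0
    generalize inp r0 = W at h1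
    induction h1 with
    | base h => exact ⟨_, h⟩
    | step _ _ _ ih => exact ih
  obtain ⟨X, hX⟩ := hne
  have hcnt : M.count X + ∑ r, y r * (out r).count X = ∑ r, y r * (if inp r = X then 1 else 0) := by
    have h1 := congrArg (fun m => Multiset.count X m) hflow
    simp only [Multiset.count_add, Multiset.count_sum', Multiset.count_nsmul,
      Multiset.count_singleton] at h1
    rw [h1]
    refine Finset.sum_congr rfl fun r _ => ?_
    by_cases h : inp r = X
    · simp [h]
    · have h' : ¬ X = inp r := fun e => h e.symm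
      simp [h, h']
  have hXpos : 0 < M.count X := Multiset.count_pos.2 hX
  have hex : ∃ r, 0 < y r ∧ inp r = X := by
    by_contra hcon
    push Not at hcon
    have h0 : ∑ r, y r * (if inp r = X then 1 else 0) = 0 := by
      refine Finset.sum_eq_zero fun r _ => ?_
      by_cases h : inp r = X
      · have : y r = 0 := by
          by_contra hne
          exact hcon r (Nat.pos_of_ne_zero hne) h
        simp [this]
      · simp [h]
    omega
  -- the rule
  have hclaim : ∃ r, 0 < y r ∧ inp r = X ∧
      (Rch inp out (fun Z => Z ∈ M.erase X + out r) (fun r => 0 < y r ∧ inp r ≠ X) X ∨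
        ∀ s, inp s = X → Function.update y r (y r - 1) s = 0) := by
    by_contra hcon
    push Not at hcon
    obtain ⟨r1, hr1, hr1X⟩ := hex
    obtain ⟨-, s1, hs1X, hs1⟩ := hcon r1 hr1 hr1X
    have hXe : X ∉ M.erase X := by
      intro hmem
      exact (hcon r1 hr1 hr1X).1 (Rch.base (Multiset.mem_add.2 (Or.inl hmem)))
    have hM1 : M.count X = 1 := by
      have h1 : (M.erase X).count X = 0 := Multiset.count_eq_zero.2 hXe
      rw [Multiset.count_erase_self] at h1
      omega
    have h2 : 2 ≤ ∑ r, y r * (if inp r = X then 1 else 0) := by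
      have h3 := sum_split (fun r => if inp r = X then 1 else 0) hr1
      simp only [smul_eq_mul] at h3
      rw [h3, if_pos hr1X]
      have h4 : (Function.update y r1 (y r1 - 1)) s1 * (if inp s1 = X then 1 else 0) ≤
          ∑ s, (Function.update y r1 (y r1 - 1)) s * (if inp s = X then 1 else 0) :=
        Finset.single_le_sum (f := fun s => (Function.update y r1 (y r1 - 1)) s *
          (if inp s = X then 1 else 0)) (fun _ _ => Nat.zero_le _) (Finset.mem_univ s1)
      rw [if_pos hs1X] at h4
      have h5 : 0 < (Function.update y r1 (y r1 - 1)) s1 := Nat.pos_of_ne_zero hs1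
      omega
    have hrho : ∃ ρ, 0 < y ρ ∧ X ∈ out ρ := by
      by_contra hno
      push Not at hno
      have h0 : ∑ r, y r * (out r).count X = 0 := by
        refine Finset.sum_eq_zero fun r _ => ?_
        rcases Nat.eq_zero_or_pos (y r) with h | h
        · simp [h]
        · simp [Multiset.count_eq_zero.2 (hno r h)]
      omega
    obtain ⟨ρ, hρ, hXρ⟩ := hrho
    have hall : ∀ Z, Rch inp out (fun Z => Z ∈ M) (fun r => 0 < y r) Z → Z = X ∨
        ∃ r, 0 < y r ∧ inp r = X ∧
          Rch inp out (fun Z => Z ∈ M.erase X + out r) (fun r => 0 < y r ∧ inp r ≠ X) Z := by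
      intro Z hZ
      induction hZ with
      | @base Z h =>
        by_cases hZX : Z = X
        · exact Or.inl hZX
        · refine Or.inr ⟨r1, hr1, hr1X, Rch.base (Multiset.mem_add.2 (Or.inl ?_))⟩
          exact (Multiset.mem_erase_of_ne hZX).2 h
      | @step s Z hs _ hZs ih =>
        by_cases hsX : inp s = X
        · exact Or.inr ⟨s, hs, hsX, Rch.base (Multiset.mem_add.2 (Or.inr hZs))⟩
        · rcases ih with h | ⟨r, hr, hrX, hR⟩
          · exact absurd h hsX
          · exact Or.inr ⟨r, hr, hrX, Rch.step ⟨hs, hsX⟩ hR hZs⟩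
    by_cases hρX : inp ρ = X
    · exact (hcon ρ hρ hρX).1 (Rch.base (Multiset.mem_add.2 (Or.inr hXρ)))
    · rcases hall _ (hconn ρ hρ) with h | ⟨r, hr, hrX, hR⟩
      · exact hρX h
      · exact (hcon r hr hrX).1 (Rch.step ⟨hρ, hρX⟩ hR hXρ)
  obtain ⟨r, hr, hrX, hor⟩ := hclaim
  refine ⟨r, hr, hrX ▸ hX, ?_, ?_⟩
  · -- flow
    have e1 := sum_split out hr
    have e2 := sum_split (fun r => ({inp r} : Multiset N)) hr
    rw [e1, e2] at hflow
    have e3 : M = {inp r} + M.erase (inp r) := by
      rw [Multiset.singleton_add, Multiset.cons_erase (hrX ▸ hX)]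
    have e4 : ({inp r} : Multiset N) + (M.erase (inp r) + out r +
        ∑ s, (Function.update y r (y r - 1)) s • out s) =
        {inp r} + ∑ s, (Function.update y r (y r - 1)) s • ({inp s} : Multiset N) := by
      rw [← hflow]
      conv_rhs => rw [e3]
      simp only [add_assoc]
    exact add_left_cancel e4
  · -- connectivity
    rw [hrX]
    have hy' : ∀ s, s ≠ r → Function.update y r (y r - 1) s = y s := fun s hs =>
      Function.update_of_ne hs _ _
    have hP : ∀ Z, Rch inp out (fun Z => Z ∈ M) (fun r => 0 < y r) Z →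
        Rch inp out (fun Z => Z ∈ M.erase X + out r)
          (fun s => 0 < Function.update y r (y r - 1) s) Z ∨
        (Z = X ∧ ∀ s, inp s = X → Function.update y r (y r - 1) s = 0) := by
      intro Z hZ
      have hPX : Rch inp out (fun Z => Z ∈ M.erase X + out r)
          (fun s => 0 < Function.update y r (y r - 1) s) X ∨
          (X = X ∧ ∀ s, inp s = X → Function.update y r (y r - 1) s = 0) := by
        rcases hor with h | h
        · refine Or.inl (h.mono (fun Z hZ => Rch.base hZ) ?_)
          rintro s ⟨hs1, hs2⟩
          have : s ≠ r := fun e => hs2 (e ▸ hrX)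
          rw [hy' s this]
          exact hs1
        · exact Or.inr ⟨rfl, h⟩
      induction hZ with
      | @base Z h =>
        by_cases hZX : Z = X
        · subst hZX; exact hPX
        · exact Or.inl (Rch.base (Multiset.mem_add.2 (Or.inl ((Multiset.mem_erase_of_ne hZX).2 h))))
      | @step s Z hs _ hZs ih =>
        by_cases hsr : s = r
        · subst hsr
          exact Or.inl (Rch.base (Multiset.mem_add.2 (Or.inr hZs)))
        · have hs' : 0 < Function.update y r (y r - 1) s := by rw [hy' s hsr]; exact hs
          rcases ih with h | ⟨h1, h2⟩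
          · exact Or.inl (Rch.step hs' h hZs)
          · rw [h2 s h1] at hs'
            exact absurd hs' (lt_irrefl 0)
    intro s hs
    have hs0 : 0 < y s := by
      by_cases hsr : s = r
      · subst hsr; exact hr
      · rwa [hy' s hsr] at hs
    rcases hP _ (hconn s hs0) with h | ⟨h1, h2⟩
    · exact h
    · rw [h2 s h1] at hs
      exact absurd hs (lt_irrefl 0)

end flow

end Pool.Agent.R238.PK
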