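import Pool.Agent.R238.PK.Flow

set_option autoImplicit false

namespace Pool.Agent.R238.PK

open Pool.Agent.R652.SR

section forms

variable {D N : Type}

/-- the nonterminal of a symbol -/
def sN : Symbol D N → Option N
  | .nonterminal X => some X
  | .terminal _ => none

/-- the terminal of a symbol -/
def sT : Symbol D N → Option D
  | .nonterminal _ => none
  | .terminal a => some a

/-- nonterminals of a sentential form -/
def nts (u : List (Symbol D N)) : Multiset N := (u.filterMap sN : List N)

/-- terminals of a sentential form -/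
def trm (u : List (Symbol D N)) : List D := u.filterMap sT

theorem nts_append (u v : List (Symbol D N)) : nts (u ++ v) = nts u + nts v := by
  simp [nts, List.filterMap_append]

theorem trm_append (u v : List (Symbol D N)) : trm (u ++ v) = trm u ++ trm v := by
  simp [trm, List.filterMap_append]

theorem nts_nt (X : N) : nts [(Symbol.nonterminal X : Symbol D N)] = {X} := by
  simp [nts, sN]

theorem trm_nt (X : N) : trm [(Symbol.nonterminal X : Symbol D N)] = [] := by
  simp [trm, sT]

theorem nts_map (w : List D) : nts (w.map (Symbol.terminal : D → Symbol D N)) = 0 := by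
  induction w with
  | nil => simp [nts]
  | cons a w ih =>
    have : (a :: w).map (Symbol.terminal : D → Symbol D N) = [Symbol.terminal a] ++ w.map Symbol.terminal := rfl
    rw [this, nts_append, ih]
    simp [nts, sN]

theorem trm_map (w : List D) : trm (w.map (Symbol.terminal : D → Symbol D N)) = w := by
  induction w with
  | nil => simp [trm]
  | cons a w ih =>
    have : (a :: w).map (Symbol.terminal : D → Symbol D N) = [Symbol.terminal a] ++ w.map Symbol.terminal := rfl
    rw [this, trm_append, ih]
    simp [trm, sT]

theorem of_nts_zero (u : List (Symbol D N)) (h : nts u = 0) : u = (trm u).map Symbol.terminal := by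
  induction u with
  | nil => simp [trm]
  | cons x u ih =>
    have h0 : x :: u = [x] ++ u := rfl
    rw [h0, nts_append] at h
    have h1 : nts [x] = 0 ∧ nts u = 0 := by simpa using h
    have h2 := ih h1.2
    cases x with
    | nonterminal X => rw [nts_nt] at h1; simp at h1
    | terminal a =>
      rw [h0, trm_append]
      conv_lhs => rw [h2]
      simp [trm, sT]

theorem split_of_mem (u : List (Symbol D N)) {X : N} (h : X ∈ nts u) :
    ∃ p q, u = p ++ [Symbol.nonterminal X] ++ q := by
  have h1 : Symbol.nonterminal X ∈ u := by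
    have h2 : X ∈ u.filterMap sN := h
    obtain ⟨s, hs, hsX⟩ := List.mem_filterMap.1 h2
    cases s with
    | terminal a => simp [sN] at hsX
    | nonterminal Y =>
      have : Y = X := by simpa [sN] using hsX
      rwa [this] at hs
  obtain ⟨p, q, hpq⟩ := List.append_of_mem h1
  exact ⟨p, q, by rw [hpq]; simp⟩

end forms

section grammar

variable {D : Type} [DecidableEq D] (g : ContextFreeGrammar D)

/-- left hand side of a rule -/
def gi (r : {r // r ∈ g.rules}) : g.NT := r.1.input

/-- nonterminals of the right hand side -/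
def go (r : {r // r ∈ g.rules}) : Multiset g.NT := nts r.1.output

/-- terminals of the right hand side -/
def gt (r : {r // r ∈ g.rules}) : List D := trm r.1.output

theorem complete (k : ℕ) : ∀ (y : {r // r ∈ g.rules} → ℕ) (u : List (Symbol D g.NT)),
    ∑ r, y r = k → Good (gi g) (go g) (nts u) y →
    ∃ w : List D, g.Derives u (w.map Symbol.terminal) ∧
      ∀ a, w.count a = (trm u).count a + ∑ r, y r • (gt g r).count a := by
  classical
  induction k with
  | zero =>
    intro y u hk hG
    have hy : ∀ r, y r = 0 := by
      intro r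
      exact (Finset.sum_eq_zero_iff.1 hk) r (Finset.mem_univ r)
    have h0 : nts u = 0 := by
      have := hG.1
      simpa [hy] using this
    refine ⟨trm u, ?_, fun a => by simp [hy]⟩
    rw [← of_nts_zero u h0]
  | succ k ih =>
    intro y u hk hG
    have hex : ∃ r, 0 < y r := by
      by_contra hcon
      push Not at hcon
      have : ∑ r, y r = 0 := Finset.sum_eq_zero fun r _ => Nat.le_zero.1 (hcon r)
      omega
    obtain ⟨r, hr, hrM, hG'⟩ := step hG hex
    obtain ⟨p, q, hpq⟩ := split_of_mem u hrM
    set v := p ++ r.1.output ++ q with hv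
    have hprod : g.Produces u v := by
      refine ⟨r.1, r.2, ?_⟩
      rw [hpq]
      exact r.1.rewrites_of_exists_parts p q
    have hnv : nts v = (nts u).erase (gi g r) + go g r := by
      have h1 : nts u = gi g r ::ₘ (nts p + nts q) := by
        rw [hpq, nts_append, nts_append]
        have : nts [(Symbol.nonterminal (gi g r) : Symbol D g.NT)] = {gi g r} := nts_nt _
        rw [this, ← Multiset.singleton_add]
        abel
      rw [h1, Multiset.erase_cons_head, hv, nts_append, nts_append]
      show nts p + go g r + nts q = _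
      abel
    have hsum : ∑ s, (Function.update y r (y r - 1)) s = k := by
      have h1 := sum_split (fun _ : {r // r ∈ g.rules} => (1 : ℕ)) hr
      simp only [smul_eq_mul, mul_one] at h1
      omega
    rw [← hnv] at hG'
    obtain ⟨w, hw1, hw2⟩ := ih _ v hsum hG'
    refine ⟨w, Relation.ReflTransGen.head hprod hw1, fun a => ?_⟩
    rw [hw2 a]
    have h1 := sum_split (fun s => (gt g s).count a) hr
    rw [h1]
    have h2 : (trm v).count a = (trm u).count a + (gt g r).count a := by
      rw [hv, hpq, trm_append, trm_append, trm_append, trm_append]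
      have : trm [(Symbol.nonterminal (gi g r) : Symbol D g.NT)] = [] := trm_nt _
      rw [this]
      simp only [List.count_append, List.count_nil]
      show _ + (gt g r).count a + _ = _
      omega
    rw [h2]
    omega

theorem sound (u : List (Symbol D g.NT))
    (h : g.Derives [Symbol.nonterminal g.initial] u) :
    ∃ y : {r // r ∈ g.rules} → ℕ,
      nts u + ∑ r, y r • ({gi g r} : Multiset g.NT) = {g.initial} + ∑ r, y r • go g r ∧
      (∀ a, (trm u).count a = ∑ r, y r • (gt g r).count a) ∧
      (∀ r, 0 < y r → Rch (gi g) (go g) (fun Z => Z ∈ ({g.initial} : Multiset g.NT))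
        (fun r => 0 < y r) (gi g r)) ∧
      (∀ Z ∈ nts u, Rch (gi g) (go g) (fun Z => Z ∈ ({g.initial} : Multiset g.NT))
        (fun r => 0 < y r) Z) := by
  classical
  induction h with
  | refl =>
    refine ⟨fun _ => 0, ?_, ?_, ?_, ?_⟩
    · simp [nts_nt]
    · intro a; simp [trm_nt]
    · intro r hr; exact absurd hr (lt_irrefl 0)
    · intro Z hZ
      rw [nts_nt] at hZ
      exact Rch.base hZ
  | @tail u v _ hprod ih =>
    obtain ⟨y, h1, h2, h3, h4⟩ := ih
    obtain ⟨r0, hr0, hrw⟩ := hprod
    obtain ⟨p, q, hu, hv⟩ := hrw.exists_parts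
    set r : {r // r ∈ g.rules} := ⟨r0, hr0⟩ with hr
    set y' := Function.update y r (y r + 1) with hy'
    have hpos : 0 < y' r := by rw [hy', Function.update_self]; omega
    have hback : Function.update y' r (y' r - 1) = y := by
      rw [hy']
      simp
    have hmono : ∀ s, 0 < y s → 0 < y' s := by
      intro s hs
      by_cases hsr : s = r
      · rw [hsr]; exact hpos
      · rw [hy', Function.update_of_ne hsr]; exact hs
    have hXu : gi g r ∈ nts u := by
      rw [hu, nts_append, nts_append]
      refine Multiset.mem_add.2 (Or.inl (Multiset.mem_add.2 (Or.inr ?_)))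
      have : nts [(Symbol.nonterminal (gi g r) : Symbol D g.NT)] = {gi g r} := nts_nt _
      show gi g r ∈ nts [(Symbol.nonterminal (gi g r) : Symbol D g.NT)]
      rw [this]
      exact Multiset.mem_singleton_self _
    have hRX : Rch (gi g) (go g) (fun Z => Z ∈ ({g.initial} : Multiset g.NT))
        (fun r => 0 < y' r) (gi g r) := (h4 _ hXu).mono (fun Z hZ => Rch.base hZ) hmono
    have hnu : nts u = nts p + {gi g r} + nts q := by
      rw [hu, nts_append, nts_append]
      have : nts [(Symbol.nonterminal (gi g r) : Symbol D g.NT)] = {gi g r} := nts_nt _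
      show nts p + nts [(Symbol.nonterminal (gi g r) : Symbol D g.NT)] + nts q = _
      rw [this]
    have hnv : nts v = nts p + go g r + nts q := by
      rw [hv, nts_append, nts_append]
      rfl
    refine ⟨y', ?_, ?_, ?_, ?_⟩
    · rw [sum_split _ hpos, sum_split (go g) hpos, hback]
      have h5 : nts v + ({gi g r} + ∑ s, y s • ({gi g s} : Multiset g.NT)) =
          (nts u + ∑ s, y s • ({gi g s} : Multiset g.NT)) + go g r := by
        rw [hnu, hnv]
        abel
      rw [h5, h1]
      abel
    · intro a
      rw [sum_split _ hpos, hback, ← h2 a, hv, hu]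
      simp only [trm_append, List.count_append]
      have h5 : trm [(Symbol.nonterminal r0.input : Symbol D g.NT)] = [] := trm_nt _
      rw [h5, List.count_nil]
      show _ + (gt g r).count a + _ = _
      omega
    · intro s hs
      by_cases hsr : s = r
      · rw [hsr]; exact hRX
      · rw [hy', Function.update_of_ne hsr] at hs
        exact (h3 s hs).mono (fun Z hZ => Rch.base hZ) hmono
    · intro Z hZ
      rw [hnv] at hZ
      rcases Multiset.mem_add.1 hZ with hZ | hZ
      · rcases Multiset.mem_add.1 hZ with hZ | hZ
        · refine (h4 Z ?_).mono (fun Z hZ => Rch.base hZ) hmono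
          rw [hnu]
          exact Multiset.mem_add.2 (Or.inl (Multiset.mem_add.2 (Or.inl hZ)))
        · exact Rch.step hpos hRX hZ
      · refine (h4 Z ?_).mono (fun Z hZ => Rch.base hZ) hmono
        rw [hnu]
        exact Multiset.mem_add.2 (Or.inr hZ)

/-- the multiplicity vectors of the terminal derivations -/
def YY : Set ({r // r ∈ g.rules} → ℕ) := {y | Good (gi g) (go g) {g.initial} y}

/-- the letters produced -/
def phi : ({r // r ∈ g.rules} → ℕ) →+ (D → ℕ) where
  toFun y := fun a => ∑ r, y r • (gt g r).count a
  map_zero' := by funext a; simp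
  map_add' y z := by
    funext a
    simp [add_mul, Finset.sum_add_distrib]

theorem par_eq : Par g.language = phi g '' YY g := by
  ext v
  constructor
  · rintro ⟨w, hw, hv⟩
    obtain ⟨y, h1, h2, h3, -⟩ := sound g _ ((ContextFreeGrammar.mem_language_iff g w).1 hw)
    rw [nts_map, zero_add] at h1
    refine ⟨y, ⟨h1.symm, h3⟩, ?_⟩
    funext a
    rw [hv a]
    show ∑ r, y r • (gt g r).count a = _
    rw [← h2 a, trm_map]
  · rintro ⟨y, hy, rfl⟩
    obtain ⟨w, hw1, hw2⟩ := complete g _ y [Symbol.nonterminal g.initial] rfl
      (by rw [nts_nt]; exact hy)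
    refine ⟨w, hw1, fun a => ?_⟩
    rw [hw2 a, trm_nt, List.count_nil, zero_add]
    rfl

theorem yy_semilinear : IsSemilinearSet (YY g) := by
  classical
  -- decomposition by supports
  have h1 : YY g = ⋃ Q : {Q : Finset {r // r ∈ g.rules} // ∀ r ∈ Q, Rch (gi g) (go g)
      (fun Z => Z ∈ ({g.initial} : Multiset g.NT)) (fun r => r ∈ Q) (gi g r)},
      ({y | {g.initial} + ∑ r, y r • go g r = ∑ r, y r • ({gi g r} : Multiset g.NT)} ∩
        ⋂ r, {y : {r // r ∈ g.rules} → ℕ | 0 < y r ↔ r ∈ Q.1}) := by
    ext y
    simp only [Set.mem_iUnion, Set.mem_inter_iff, Set.mem_iInter, Set.mem_ofPred_eq]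
    constructor
    · rintro ⟨h1, h2⟩
      refine ⟨⟨Finset.univ.filter fun r => 0 < y r, ?_⟩, h1, fun r => by simp⟩
      intro r hr
      refine (h2 r (Finset.mem_filter.1 hr).2).mono (fun Z hZ => Rch.base hZ) ?_
      intro s hs
      exact Finset.mem_filter.2 ⟨Finset.mem_univ s, hs⟩
    · rintro ⟨⟨Q, hQ⟩, h1, h2⟩
      refine ⟨h1, fun r hr => ?_⟩
      exact (hQ r ((h2 r).1 hr)).mono (fun Z hZ => Rch.base hZ) (fun s hs => (h2 s).2 hs)
  rw [h1]
  refine IsSemilinearSet.iUnion fun Q => IsSemilinearSet.inter ?_ (IsSemilinearSet.iInter fun r => ?_)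
  · let F : ({r // r ∈ g.rules} → ℕ) →+ Multiset g.NT :=
      { toFun := fun y => ∑ r, y r • go g r
        map_zero' := by simp
        map_add' := fun y z => by simp [add_smul, Finset.sum_add_distrib] }
    let G : ({r // r ∈ g.rules} → ℕ) →+ Multiset g.NT :=
      { toFun := fun y => ∑ r, y r • ({gi g r} : Multiset g.NT)
        map_zero' := by simp
        map_add' := fun y z => by simp [add_smul, Finset.sum_add_distrib] }
    have h2 := isSemilinearSet_setOfPred_eq ({g.initial} : Multiset g.NT) 0 F G
    simp only [zero_add] at h2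
    exact h2
  · have h0 : IsSemilinearSet {y : {r // r ∈ g.rules} → ℕ | y r = 0} := by
      have h2 := isSemilinearSet_setOfPred_eq (0 : ℕ) 0
        (Pi.evalAddMonoidHom (fun _ : {r // r ∈ g.rules} => ℕ) r)
        (0 : ({r // r ∈ g.rules} → ℕ) →+ ℕ)
      simpa using h2
    by_cases hrQ : r ∈ Q.1
    · have h3 : {y : {r // r ∈ g.rules} → ℕ | 0 < y r ↔ r ∈ Q.1} =
          {y : {r // r ∈ g.rules} → ℕ | y r = 0}ᶜ := by
        ext y
        simp [hrQ, Nat.pos_iff_ne_zero]
      rw [h3]
      exact h0.compl
    · have h3 : {y : {r // r ∈ g.rules} → ℕ | 0 < y r ↔ r ∈ Q.1} =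
          {y : {r // r ∈ g.rules} → ℕ | y r = 0} := by
        ext y
        simp [hrQ]
      rw [h3]
      exact h0

end grammar

/-- Parikh's theorem -/
theorem t_PK : S_PK := by
  intro D _ _ K hK
  obtain ⟨g, rfl⟩ := hK
  rw [par_eq]
  exact (yy_semilinear g).image (phi g)

end Pool.Agent.R238.PK
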